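import Mathlib
import Pool.Agent.Y696.Hex
import Pool.Agent.Y696.Val1
import Pool.Agent.W2helper24.TQ.Stm

/-!
# Project TQ, piece B4: the lattice of `y² = 4 x³ - 4`
-/

set_option autoImplicit false

namespace Pool.Agent.W2helper17.TQ.B4

open NumberField IsDedekindDomain Complex Filter Topology WeierstrassCurve
open Pool.Agent.Y696 Pool.Agent.W192.HK Pool.Agent.TH936.CM Pool.Agent.TH936.PU
open Pool.Agent.W192.CM (nu)
open Pool.Agent.W2helper24.TQ
open H667R3
open scoped PeriodPair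

/-! ## arithmetic of `lam` -/

lemma lam_coe : (lam : ℂ) = 2 * om + 1 := by
  unfold lam
  push_cast [omr_coe]
  rfl

lemma lam_sq : lam * lam = -3 := by
  unfold lam
  linear_combination 4 * omr_sq

lemma lam_sq' : (lam : ℂ) * lam = -3 := by
  rw [lam_coe]
  linear_combination 4 * om_sq

lemma lam_ne : lam ≠ 0 := by
  intro h
  have h1 := lam_sq'
  rw [h] at h1
  norm_num at h1

lemma lam_ne' : (lam : ℂ) ≠ 0 := coe_ne lam_ne

lemma lam_om : lam = -omr * (omr - 1) := by
  unfold lam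
  linear_combination omr_sq

lemma om_one : omr - 1 = -omr ^ 2 * lam := by
  unfold lam
  linear_combination (2 * omr - 1) * omr_sq

lemma three_mem : (3 : eis) ∈ (sp lam : Ideal eis) := by
  rw [Ideal.mem_span_singleton']
  exact ⟨-lam, by linear_combination -lam_sq⟩

lemma om_one_mem : omr - 1 ∈ (sp lam : Ideal eis) := by
  rw [Ideal.mem_span_singleton']
  exact ⟨-omr ^ 2, om_one.symm⟩

lemma one_notMem : (1 : eis) ∉ (sp lam : Ideal eis) := by
  intro h
  rw [Ideal.mem_span_singleton'] at h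
  obtain ⟨t, ht⟩ := h
  have h1 : Complex.normSq (t : ℂ) * 3 = 1 := by
    have h2 := congrArg (fun s : eis => Complex.normSq (s : ℂ)) ht
    simp only [Subring.coe_mul, Complex.normSq_mul, Subring.coe_one, map_one] at h2
    have h3 : Complex.normSq (lam : ℂ) = 3 := by
      have := norm_rep 1 2
      rw [lam_coe]
      rw [show (2 * om + 1 : ℂ) = ((1 : ℤ) : ℂ) + ((2 : ℤ) : ℂ) * om by push_cast; ring, this]
      norm_num
    rw [h3] at h2
    exact h2
  obtain ⟨n, hn⟩ := norm_int t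
  rw [hn] at h1
  have h4 : n * 3 = 1 := by exact_mod_cast h1
  omega

/-- the classes modulo `lam` -/
lemma cases_mod (x : eis) : x ∈ (sp lam : Ideal eis) ∨ x - 1 ∈ (sp lam : Ideal eis) ∨
    x + 1 ∈ (sp lam : Ideal eis) := by
  obtain ⟨a, b, rfl⟩ := eis_rep x
  have h3 : ∀ k : ℤ, (k : eis) * 3 ∈ (sp lam : Ideal eis) := fun k =>
    Ideal.mul_mem_left _ _ three_mem
  have h1 : (b : eis) * (omr - 1) ∈ (sp lam : Ideal eis) := Ideal.mul_mem_left _ _ om_one_mem
  obtain ⟨k, hk⟩ : ∃ k : ℤ, a + b = 3 * k ∨ a + b = 3 * k + 1 ∨ a + b = 3 * k - 1 := by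
    have h := Int.emod_add_mul_ediv (a + b) 3
    have h' := Int.emod_nonneg (a + b) (by norm_num : (3 : ℤ) ≠ 0)
    have h'' := Int.emod_lt_of_pos (a + b) (by norm_num : (0 : ℤ) < 3)
    by_cases h2 : (a + b) % 3 = 2
    · exact ⟨(a + b) / 3 + 1, by omega⟩
    · exact ⟨(a + b) / 3, by omega⟩
  rcases hk with hk | hk | hk
  · left
    have e : (a : eis) + b = 3 * k := by exact_mod_cast congrArg (fun t : ℤ => (t : eis)) hk
    have := Ideal.add_mem _ h1 (h3 k)
    convert this using 1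
    linear_combination e
  · right; left
    have e : (a : eis) + b = 3 * k + 1 := by exact_mod_cast congrArg (fun t : ℤ => (t : eis)) hk
    have := Ideal.add_mem _ h1 (h3 k)
    convert this using 1
    linear_combination e
  · right; right
    have e : (a : eis) + b = 3 * k - 1 := by exact_mod_cast congrArg (fun t : ℤ => (t : eis)) hk
    have := Ideal.add_mem _ h1 (h3 k)
    convert this using 1
    linear_combination e

lemma two_notMem : (1 : eis) - (-1) ∉ (sp lam : Ideal eis) := by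
  intro h
  apply one_notMem
  have h1 := Ideal.sub_mem _ three_mem h
  convert h1 using 1
  ring

lemma two_sum (F : eis → ℂ) (hF0 : ∀ x ∈ (sp lam : Ideal eis), F x = 0)
    (hper : ∀ x y : eis, x - y ∈ (sp lam : Ideal eis) → F x = F y)
    [Fintype (eis ⧸ (sp lam : Ideal eis))] :
    ∑ y : eis ⧸ (sp lam : Ideal eis), F y.out = F 1 + F (-1) := by
  classical
  set g : eis → eis ⧸ (sp lam : Ideal eis) := fun x => Ideal.Quotient.mk _ x with hg
  have hne : g 1 ≠ g (-1) := by
    intro h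
    rw [hg] at h
    simp only at h
    rw [Ideal.Quotient.mk_eq_mk_iff_sub_mem] at h
    exact two_notMem h
  have hout : ∀ x, F (g x).out = F x := by
    intro x
    apply hper
    rw [← Ideal.Quotient.mk_eq_mk_iff_sub_mem, Ideal.Quotient.mk_out]
  have h1 : ∑ y ∈ ({g 1, g (-1)} : Finset _), F y.out = F 1 + F (-1) := by
    rw [Finset.sum_pair hne, hout, hout]
  rw [← h1]
  symm
  refine Finset.sum_subset (Finset.subset_univ _) fun y _ hy => hF0 _ ?_
  by_contra hx
  apply hy
  rw [Finset.mem_insert, Finset.mem_singleton]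
  rcases cases_mod y.out with h | h | h
  · exact absurd h hx
  · left
    rw [hg]
    simp only
    rw [← Ideal.Quotient.mk_out y, Ideal.Quotient.mk_eq_mk_iff_sub_mem]
    exact h
  · right
    rw [hg]
    simp only
    rw [← Ideal.Quotient.mk_out y, Ideal.Quotient.mk_eq_mk_iff_sub_mem, sub_neg_eq_add]
    exact h

/-! ## the lattice -/

variable {L : PeriodPair} {Ω : ℂ}

theorem exists_curM : ∃ (L : PeriodPair) (Ω : ℂ), CurM L Ω := by
  have h0 := hex_g3 1 one_ne_zero
  obtain ⟨Ω, hΩ⟩ := IsAlgClosed.exists_pow_nat_eq ((hex 1 one_ne_zero).g₃ / 4) (n := 6)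
    (by norm_num)
  have hΩ0 : Ω ≠ 0 := by
    rintro rfl
    apply h0
    rw [zero_pow (by norm_num)] at hΩ
    linear_combination -4 * hΩ
  refine ⟨hex Ω hΩ0, Ω, hex_lat Ω hΩ0, hex_g2 Ω hΩ0, ?_⟩
  rw [hex_g3_scale hΩ0, hΩ]
  field_simp

lemma ode (hC : CurM L Ω) {z : ℂ} (hz : z ∉ L.lattice) :
    ℘'[L] z ^ 2 = 4 * ℘[L] z ^ 3 - 4 := by
  rw [L.derivWeierstrassP_sq z hz, hC.g2, hC.g3]
  ring

lemma div_iff' (hC : CurM L Ω) {a : eis} (ha : a ≠ 0) (r : eis) :
    Ω * r / a ∈ L.lattice ↔ r ∈ (sp a : Ideal eis) := div_mem_iff hC.lat ha r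

lemma z0_notMem (hC : CurM L Ω) : Ω / (lam : ℂ) ∉ L.lattice := by
  have h := div_iff' hC lam_ne 1
  rw [show Ω * ((1 : eis) : ℂ) / (lam : ℂ) = Ω / lam by push_cast; rw [mul_one]] at h
  rw [h]
  exact one_notMem

lemma wp_om (hL : IsLat L eis Ω) (z : ℂ) : ℘[L] (om * z) = om * ℘[L] z := by
  have h := wp_unit hL omr_unit z
  rw [omr_coe] at h
  rw [h]
  congr 1
  have : om * om ^ 2 = 1 := by linear_combination om_cube
  exact (eq_inv_of_mul_eq_one_left this).symm

lemma dwp_om (hL : IsLat L eis Ω) (z : ℂ) : ℘'[L] (om * z) = ℘'[L] z := by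
  have h := dwp_unit hL omr_unit z
  rw [omr_coe, om_cube] at h
  rw [h]
  simp

lemma om_mem_iff (hL : IsLat L eis Ω) (z : ℂ) : om * z ∈ L.lattice ↔ z ∈ L.lattice :=
  lat_unit hL omr_unit z

lemma om_ne_one : om ≠ 1 := by
  intro h
  have := om_im
  rw [h] at this
  simp at this

/-- zeros of `℘` -/
lemma lam_mem_of_zero (hC : CurM L Ω) {z : ℂ} (hz : z ∉ L.lattice) (h : ℘[L] z = 0) :
    (lam : ℂ) * z ∈ L.lattice := by
  have h1 : ℘[L] (om * z) = ℘[L] z := by rw [wp_om hC.lat, h, mul_zero]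
  rw [wp_eq_iff L (by rwa [om_mem_iff hC.lat]) hz] at h1
  rcases h1 with h1 | h1
  · exfalso
    apply hz
    have h2 := (om_mem_iff hC.lat _).2 h1
    have h3 := neg_mem h2
    convert h3 using 1
    linear_combination z * om_sq
  · have h2 := neg_mem ((om_mem_iff hC.lat _).2 h1)
    convert h2 using 1
    rw [lam_coe]
    linear_combination z * om_sq

lemma wp_z0 (hC : CurM L Ω) : ℘[L] (Ω / (lam : ℂ)) = 0 := by
  have hz := z0_notMem hC
  have h1 : ℘[L] (om * (Ω / lam)) = ℘[L] (Ω / lam) := by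
    rw [wp_eq_iff L (by rwa [om_mem_iff hC.lat]) hz]
    right
    have h2 : om * (Ω / (lam : ℂ)) - Ω / lam = Ω * ((-omr ^ 2 : eis) : ℂ) := by
      have h3 := congrArg (fun t : eis => (t : ℂ)) om_one
      push_cast at h3
      rw [omr_coe] at h3
      push_cast
      rw [omr_coe]
      have h4 := lam_ne'
      field_simp
      linear_combination Ω * h3
    rw [h2]
    exact hC.lat.mem_mul _
  rw [wp_om hC.lat] at h1
  have h2 : (om - 1) * ℘[L] (Ω / (lam : ℂ)) = 0 := by linear_combination h1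
  exact (mul_eq_zero.1 h2).resolve_left (sub_ne_zero.2 om_ne_one)

lemma dwp_z0 (hC : CurM L Ω) : ℘'[L] (Ω / (lam : ℂ)) ^ 2 = -4 := by
  rw [ode hC (z0_notMem hC), wp_z0 hC]
  ring

theorem hh (hC : CurM L Ω) (tl : eis → ℂ) (ht : Thl tl) (he : Eo lam tl)
    [Fintype (eis ⧸ (sp lam : Ideal eis))] (w : ℂ) :
    HH L Ω lam tl w = -℘'[L] (Ω / (lam : ℂ)) / ℘[L] w := by
  unfold HH
  rw [two_sum (fun y => tl y * Dd L (Ω * y / (lam : ℂ)) w)]
  · have e1 : Ω * ((1 : eis) : ℂ) / (lam : ℂ) = Ω / lam := by push_cast; rw [mul_one]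
    have e2 : Ω * ((-1 : eis) : ℂ) / (lam : ℂ) = -(Ω / lam) := by push_cast; ring
    rw [e1, e2, ht.one 1 (by simp), ht.neg (-1) (by simp)]
    unfold Dd
    rw [PeriodPair.weierstrassP_neg, PeriodPair.derivWeierstrassP_neg, wp_z0 hC]
    ring
  · intro x hx
    rw [ht.zero x hx, zero_mul]
  · intro x y hxy
    rw [he.per x y hxy]
    congr 1
    apply Pool.Agent.TH936.PU.Dd_per
    have := (div_iff' hC lam_ne (x - y)).2 hxy
    convert this using 1
    push_cast
    ring

/-- multiplication by `lam` -/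
theorem mul_lam (hC : CurM L Ω) {z : ℂ} (hz : (lam : ℂ) * z ∉ L.lattice) :
    ℘[L] ((lam : ℂ) * z) * (3 * ℘[L] z ^ 2) = 4 - ℘[L] z ^ 3 := by
  have hz0 : z ∉ L.lattice := fun h => hz (hC.lat.mul lam z h)
  have hX : ℘[L] z ≠ 0 := fun h => hz (lam_mem_of_zero hC hz0 h)
  by_cases h2 : 2 * z ∈ L.lattice
  · have h3 : ℘'[L] z = 0 := by
      have := wp'_half_eq_zero L h2
      rwa [show 2 * z / 2 = z by ring] at this
    have h4 := ode hC hz0
    rw [h3] at h4
    have h5 : ℘[L] ((lam : ℂ) * z) = ℘[L] z := by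
      rw [wp_eq_iff L hz hz0]
      right
      have h6 := (om_mem_iff hC.lat _).2 h2
      convert h6 using 1
      rw [lam_coe]
      ring
    rw [h5]
    linear_combination -h4
  · have a1 : 2 * (om * z) ∉ L.lattice := by
      rw [show 2 * (om * z) = om * (2 * z) by ring, om_mem_iff hC.lat]
      exact h2
    have a2 : -(om * (om * z)) ∉ L.lattice := by
      rw [neg_mem_iff, om_mem_iff hC.lat, om_mem_iff hC.lat]
      exact hz0
    have e1 : om * z + -(om * (om * z)) = lam * z := by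
      rw [lam_coe]
      linear_combination (-z) * om_sq
    have e2 : om * z - -(om * (om * z)) = -z := by
      linear_combination z * om_sq
    have h := wp_add (L := L) a1 a2 (by rw [e1]; exact hz) (by rw [e2, neg_mem_iff]; exact hz0)
    rw [e1, PeriodPair.weierstrassP_neg, PeriodPair.derivWeierstrassP_neg, wp_om hC.lat,
      wp_om hC.lat, wp_om hC.lat, dwp_om hC.lat, dwp_om hC.lat, dwp_om hC.lat, hC.g2] at h
    have hY := ode hC hz0
    set X := ℘[L] z with hXd
    set Y := ℘'[L] z with hYd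
    have h5 : 2 * (om * X - om * (om * X)) ^ 2 = -6 * X ^ 2 := by
      linear_combination (2 * X ^ 2 * (om ^ 2 - 3 * om + 3)) * om_sq
    rw [h5] at h
    have h6 : (-6 * X ^ 2 : ℂ) ≠ 0 := mul_ne_zero (by norm_num) (pow_ne_zero 2 hX)
    have h7 : ∀ A B : ℂ, (A - B / (-6 * X ^ 2)) * (3 * X ^ 2) = A * (3 * X ^ 2) + B / 2 := by
      intro A B
      field_simp
      ring
    rw [h, h7]
    linear_combination (-1) * hY - 3 * X ^ 3 * (om - 1) ^ 2 * om_sq

/-! ## values at the points of order prime to three -/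

section val

variable {Γ : Type} [LinearOrderedCommGroupWithZero Γ] {v : Valuation ℂ Γ}

lemma v_lam_sq : v (lam : ℂ) * v (lam : ℂ) = v 3 := by
  rw [← map_mul, lam_sq', v.map_neg]

lemma v_lam (hv : v 3 < 1) : v (lam : ℂ) < 1 := by
  by_contra h
  rw [not_lt] at h
  have h1 := mul_le_mul' h h
  rw [v_lam_sq, one_mul] at h1
  exact absurd h1 (not_le.2 hv)

lemma v_lam_pos : 0 < v (lam : ℂ) := zero_lt_iff.2 ((Valuation.ne_zero_iff _).2 lam_ne')

/-- multiplication by `lam` increases large values -/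
lemma v_incr (hC : CurM L Ω) (hv : v 3 < 1) {z : ℂ} (hz : (lam : ℂ) * z ∉ L.lattice)
    (h : v (lam : ℂ) < v (℘[L] z - 1)) :
    v (℘[L] z - 1) < v (℘[L] ((lam : ℂ) * z) - 1) := by
  have hm := mul_lam hC hz
  have hl := lam_sq'
  set X := ℘[L] z with hX
  set X' := ℘[L] ((lam : ℂ) * z) with hX'
  set l : ℂ := (lam : ℂ) with hld
  have hl0 : l ≠ 0 := lam_ne'
  have hlv : v l < 1 := v_lam hv
  have hlp : 0 < v l := v_lam_pos
  set t := (X - 1) / l with ht
  set t' := (X' - 1) / l with ht'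
  have et : X = 1 + l * t := by rw [ht]; field_simp; ring
  have et' : X' = 1 + l * t' := by rw [ht']; field_simp; ring
  have key : (1 + l * t) ^ 2 * t' = t ^ 3 - 2 * l * t ^ 2 - 3 * t := by
    have h3 : l ^ 3 * ((1 + l * t) ^ 2 * t' - (t ^ 3 - 2 * l * t ^ 2 - 3 * t)) = 0 := by
      rw [et, et'] at hm
      linear_combination (-1) * hm + (l * (1 + l * t) ^ 2 * t' + 2 * l ^ 2 * t ^ 2 + 3 * l * t) * hl
    exact sub_eq_zero.1 ((mul_eq_zero.1 h3).resolve_left (pow_ne_zero 3 hl0))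
  have e1 : v (X - 1) = v l * v t := by rw [et, ← map_mul]; congr 1; ring
  have e2 : v (X' - 1) = v l * v t' := by rw [et', ← map_mul]; congr 1; ring
  have h1t : 1 < v t := by
    by_contra hle
    rw [not_lt] at hle
    rw [e1] at h
    have := mul_le_mul' (le_refl (v l)) hle
    rw [mul_one] at this
    exact absurd h (not_lt.2 this)
  rw [e1, e2]
  have htp : 0 < v t := zero_lt_one.trans h1t
  -- the numerator
  have hnum : v (t ^ 3 - 2 * l * t ^ 2 - 3 * t) = v t ^ 3 := by
    have a1 : v (2 * l * t ^ 2) < v t ^ 3 := by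
      rw [map_mul, map_mul, map_pow]
      calc v 2 * v l * v t ^ 2 ≤ 1 * v l * v t ^ 2 := by
            gcongr
            have := v_int (v := v) 2
            exact_mod_cast this
        _ < 1 * 1 * v t ^ 2 := by
            rw [one_mul, one_mul]
            exact mul_lt_mul_of_pos_right hlv (pow_pos htp 2)
        _ ≤ v t ^ 3 := by
            rw [one_mul, one_mul]
            exact pow_le_pow_right₀ h1t.le (by norm_num)
    have a2 : v (3 * t) < v t ^ 3 := by
      rw [map_mul]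
      calc v 3 * v t < 1 * v t := mul_lt_mul_of_pos_right hv htp
        _ = v t ^ 1 := by rw [one_mul, pow_one]
        _ ≤ v t ^ 3 := pow_le_pow_right₀ h1t.le (by norm_num)
    have a3 : v (t ^ 3 - 2 * l * t ^ 2) = v t ^ 3 := by
      rw [Valuation.map_sub_eq_of_lt_left, map_pow]
      rw [map_pow]; exact a1
    rw [Valuation.map_sub_eq_of_lt_left, a3]
    rw [a3]; exact a2
  have hk := congrArg v key
  rw [map_mul, map_pow, hnum] at hk
  -- the denominator
  have hden : v (1 + l * t) ≤ max 1 (v l * v t) := by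
    have := v.map_add 1 (l * t)
    rwa [map_one, map_mul] at this
  refine mul_lt_mul_of_pos_left ?_ hlp
  by_contra hle
  rw [not_lt] at hle
  have h5 : v (1 + l * t) ^ 2 * v t' < v t ^ 3 := by
    have hden2 : v (1 + l * t) ^ 2 < v t ^ 2 := by
      have h6 : v (1 + l * t) < v t := by
        refine lt_of_le_of_lt hden (max_lt h1t ?_)
        calc v l * v t < 1 * v t := mul_lt_mul_of_pos_right hlv htp
          _ = v t := one_mul _
      exact pow_lt_pow_left₀ h6 zero_le (by norm_num)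
    calc v (1 + l * t) ^ 2 * v t' ≤ v (1 + l * t) ^ 2 * v t := mul_le_mul' le_rfl hle
      _ < v t ^ 2 * v t := mul_lt_mul_of_pos_right hden2 htp
      _ = v t ^ 3 := by rw [← pow_succ]
  rw [hk] at h5
  exact lt_irrefl _ h5

theorem v_pt (hC : CurM L Ω) (hv : v 3 < 1) {a b : eis} (hb : b ≠ 0) (hbl : IsCoprime b lam)
    (ha : a ∉ (sp b : Ideal eis)) : v (℘[L] (Ω * a / b) - 1) ≤ v (lam : ℂ) := by
  by_contra hlt
  rw [not_le] at hlt
  have hfin := finite_q hb
  have hmul : ∀ n : ℕ, lam ^ n * a ∉ (sp b : Ideal eis) := by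
    intro n hn
    apply ha
    have hcop : IsCoprime (lam ^ n : eis) b := (hbl.symm).pow_left
    obtain ⟨s, t, hst⟩ := hcop
    rw [Ideal.mem_span_singleton'] at hn ⊢
    obtain ⟨r, hr⟩ := hn
    exact ⟨s * r + t * a, by linear_combination s * hr + a * hst⟩
  have hz : ∀ n : ℕ, (lam : ℂ) ^ n * (Ω * a / b) ∉ L.lattice := by
    intro n h
    apply hmul n
    rw [← div_iff' hC hb]
    convert h using 1
    push_cast
    ring
  have hinc : ∀ n : ℕ, v (℘[L] (Ω * a / b) - 1) <
      v (℘[L] ((lam : ℂ) ^ (n + 1) * (Ω * a / b)) - 1) := by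
    intro n
    induction n with
    | zero =>
      have h1 := v_incr hC hv (z := Ω * a / b) (by simpa using hz 1) hlt
      simpa using h1
    | succ n ih =>
      have h1 := v_incr hC hv (z := (lam : ℂ) ^ (n + 1) * (Ω * a / b)) (by
        have := hz (n + 2)
        rw [← mul_assoc, ← pow_succ']
        exact this) (hlt.trans ih)
      rw [← mul_assoc, ← pow_succ'] at h1
      exact ih.trans h1
  -- periodicity
  obtain ⟨u, hu⟩ := (unit_iff (c := b) lam).2 hbl.symm
  have h1 : u ^ Nat.card (eis ⧸ (sp b : Ideal eis))ˣ = 1 := pow_card_eq_one'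
  obtain ⟨n, hn⟩ : ∃ n, Nat.card (eis ⧸ (sp b : Ideal eis))ˣ = n + 1 :=
    ⟨_, (Nat.succ_pred_eq_of_pos Nat.card_pos).symm⟩
  rw [hn] at h1
  have h2 : lam ^ (n + 1) - 1 ∈ (sp b : Ideal eis) := by
    rw [← Ideal.Quotient.mk_eq_mk_iff_sub_mem, map_pow, ← hu, ← Units.val_pow_eq_pow_val, h1]
    simp
  have h3 : ℘[L] ((lam : ℂ) ^ (n + 1) * (Ω * a / b)) = ℘[L] (Ω * a / b) := by
    apply wp_per
    have h4 : (lam ^ (n + 1) - 1) * a ∈ (sp b : Ideal eis) := Ideal.mul_mem_right _ _ h2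
    rw [← div_iff' hC hb] at h4
    convert h4 using 1
    push_cast
    ring
  have h4 := hinc n
  rw [h3] at h4
  exact lt_irrefl _ h4

end val

theorem piece : P_B4 := by
  refine ⟨exists_curM, fun L Ω hC => ⟨⟨z0_notMem hC, wp_z0 hC, dwp_z0 hC⟩, ?_, ?_, ?_⟩⟩
  · intro tl ht he _ w _
    exact hh hC tl ht he w
  · intro z hz
    exact mul_lam hC hz
  · intro Γ _ v hv a b hb hbl ha
    have h1 := v_pt hC hv hb hbl ha
    refine ⟨?_, h1⟩
    have h2 : v (℘[L] (Ω * a / b) - 1) < v 1 := by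
      rw [map_one]
      exact lt_of_le_of_lt h1 (v_lam hv)
    have h3 := Valuation.map_add_eq_of_lt_left v h2
    rw [map_one] at h3
    rw [← h3]
    congr 1
    ring

end Pool.Agent.W2helper17.TQ.B4
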